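import Pool.Agent.TH281.Mor.Main

/-!
# From `W - c det` with nonnegative second differences to quasiconvexity
-/

set_option autoImplicit false

open Set Filter Topology MeasureTheory Matrix
open Pool.Agent.Helper188.Morrey (RankOneConvex grad)
open scoped NNReal

namespace Pool.Agent.TH281.Mor

/-- midpoint convexity and continuity on a segment -/
lemma seg_of_mid {φ : ℝ → ℝ} (hc : Continuous φ)
    (h : ∀ t k, 0 ≤ φ (t + k) + φ (t - k) - 2 * φ t) {t : ℝ} (ht0 : 0 ≤ t) (ht1 : t ≤ 1) :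
    φ t ≤ (1 - t) * φ 0 + t * φ 1 := by
  set ψ : ℝ → ℝ := fun s => φ s - ((1 - s) * φ 0 + s * φ 1) with hψ
  have hψc : Continuous ψ := by rw [hψ]; fun_prop
  have hψ0 : ψ 0 = 0 := by simp [hψ]
  have hψ1 : ψ 1 = 0 := by simp [hψ]
  have hψD : ∀ s k, 0 ≤ ψ (s + k) + ψ (s - k) - 2 * ψ s := by
    intro s k
    have := h s k
    simp only [hψ]
    nlinarith
  by_contra hcon
  push Not at hcon
  have hpos : 0 < ψ t := by simp only [hψ]; linarith
  obtain ⟨m, hm, hmax⟩ := (isCompact_Icc (a := (0:ℝ)) (b := 1)).exists_isMaxOn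
    ⟨0, by norm_num⟩ hψc.continuousOn
  have hM : ψ t ≤ ψ m := hmax ⟨ht0, ht1⟩
  set S : Set ℝ := Icc (0:ℝ) 1 ∩ ψ ⁻¹' {ψ m} with hS
  have hScl : IsClosed S := isClosed_Icc.inter (isClosed_singleton.preimage hψc)
  have hSn : S.Nonempty := ⟨m, hm, rfl⟩
  have hSb : BddBelow S := ⟨0, fun x hx => hx.1.1⟩
  have hinf : sInf S ∈ S := hScl.csInf_mem hSn hSb
  set q : ℝ := sInf S with hq
  have hqv : ψ q = ψ m := hinf.2
  have hq0 : 0 < q := by
    rcases hinf.1.1.eq_or_lt with e | e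
    · rw [← e, hψ0] at hqv; linarith
    · exact e
  have hq1 : q < 1 := by
    rcases hinf.1.2.eq_or_lt with e | e
    · rw [e, hψ1] at hqv; linarith
    · exact e
  set k : ℝ := min q (1 - q) with hk
  have hk0 : 0 < k := lt_min hq0 (by linarith)
  have hk1 : k ≤ q := min_le_left _ _
  have hk2 : k ≤ 1 - q := min_le_right _ _
  have h1 : ψ (q + k) ≤ ψ m := hmax ⟨by linarith, by linarith⟩
  have h2 : ψ (q - k) ≤ ψ m := hmax ⟨by linarith, by linarith⟩
  have h3 := hψD q k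
  rw [hqv] at h3
  have h4 : ψ (q - k) = ψ m := by linarith
  have h5 : q ≤ q - k := csInf_le hSb ⟨⟨by linarith, by linarith⟩, h4⟩
  linarith

/-- nonnegative second differences and continuity give convexity -/
lemma convex_of_D2 {G : Matrix (Fin 2) (Fin 2) ℝ → ℝ} (hc : Continuous G)
    (h : ∀ A H, 0 ≤ D2 G A H) : ConvexOn ℝ univ G := by
  refine ⟨convex_univ, fun A _ B _ a b ha hb hab => ?_⟩
  have hφc : Continuous (fun t : ℝ => G (A + t • (B - A))) := by
    exact hc.comp (continuous_const.add (continuous_id.smul continuous_const))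
  have h1 := seg_of_mid hφc (fun t k => by
    have := h (A + t • (B - A)) (k • (B - A))
    unfold D2 at this
    have e1 : A + (t + k) • (B - A) = A + t • (B - A) + k • (B - A) := by
      rw [add_smul, add_assoc]
    have e2 : A + (t - k) • (B - A) = A + t • (B - A) - k • (B - A) := by
      rw [sub_smul]; abel
    simp only [e1, e2]
    exact this) hb (by linarith)
  simp only [zero_smul, add_zero, one_smul, add_sub_cancel] at h1
  have e3 : A + b • (B - A) = a • A + b • B := by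
    have : a = 1 - b := by linarith
    rw [this, smul_sub, sub_smul, one_smul]; abel
  rw [e3] at h1
  have e4 : 1 - b = a := by linarith
  rw [e4] at h1
  exact h1

/-- the second difference of `W - c det` -/
lemma D2_sub_det (W : Matrix (Fin 2) (Fin 2) ℝ → ℝ) (c : ℝ) (A H : Matrix (Fin 2) (Fin 2) ℝ) :
    D2 (fun A => W A - c * A.det) A H = D2 W A H - 2 * c * H.det := by
  unfold D2
  simp only [Matrix.det_fin_two, Matrix.add_apply, Matrix.sub_apply]
  ring

/-- the determinant is a null Lagrangian -/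
lemma int_det (F₀ : Matrix (Fin 2) (Fin 2) ℝ) {Ω : Set (Fin 2 → ℝ)} (hΩ : IsOpen Ω)
    (hb : Bornology.IsBounded Ω) {ϑ : (Fin 2 → ℝ) → (Fin 2 → ℝ)} {K : ℝ≥0}
    (hK : LipschitzWith K ϑ) (h0 : ∀ x, x ∉ Ω → ϑ x = 0) :
    ∫ x in Ω, (F₀ + grad ϑ x).det = F₀.det * (volume Ω).toReal := by
  have key : ∀ s : ℝ, s * F₀.det * (volume Ω).toReal ≤ s * ∫ x in Ω, (F₀ + grad ϑ x).det := by
    intro s
    have h1 := Pool.Agent.W779.Morrey.qc_of_trig (Pool.Agent.W779.Morrey.continuous_W2 s (-s))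
      (Pool.Agent.W779.Morrey.QCtrig_det s) F₀ hΩ hb hK h0
    have e : ∀ F : Matrix (Fin 2) (Fin 2) ℝ, Pool.Agent.W779.Morrey.W2 s (-s) F = s * F.det := by
      intro F
      have h2 : F.det = Pool.Agent.W779.Morrey.pP F - Pool.Agent.W779.Morrey.pQ F :=
        Pool.Agent.W779.Morrey.det_eq F
      rw [h2]
      change s * Pool.Agent.W779.Morrey.pP F + -s * Pool.Agent.W779.Morrey.pQ F = _
      ring
    rw [← integral_const_mul]
    have e1 : Pool.Agent.W779.Morrey.W2 s (-s) F₀ = s * F₀.det := e F₀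
    rw [e1] at h1
    refine h1.trans (le_of_eq ?_)
    refine integral_congr_ae (Eventually.of_forall fun x => ?_)
    simp only
    rw [Pool.Agent.W779.Morrey.gr_eq_grad]
    exact e _
  have h1 := key 1
  have h2 := key (-1)
  linarith

/-- Jensen's inequality for a continuous convex function -/
lemma int_convex {G : Matrix (Fin 2) (Fin 2) ℝ → ℝ} (hc : Continuous G) (hG : ConvexOn ℝ univ G)
    (F₀ : Matrix (Fin 2) (Fin 2) ℝ) {Ω : Set (Fin 2 → ℝ)} (hΩ : IsOpen Ω)
    (hb : Bornology.IsBounded Ω) {ϑ : (Fin 2 → ℝ) → (Fin 2 → ℝ)} {K : ℝ≥0}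
    (hK : LipschitzWith K ϑ) (h0 : ∀ x, x ∉ Ω → ϑ x = 0) :
    G F₀ * (volume Ω).toReal ≤ ∫ x in Ω, G (F₀ + grad ϑ x) := by
  rcases eq_or_ne (volume Ω) 0 with hv | hv
  · rw [hv]
    have : volume.restrict Ω = 0 := Measure.restrict_eq_zero.2 hv
    rw [this]; simp
  have hvt : volume Ω ≠ ⊤ := hb.measure_lt_top.ne
  -- work in the normed space of functions of two indices
  let G' : (Fin 2 → Fin 2 → ℝ) → ℝ := fun A => G (Matrix.of A)
  let f : (Fin 2 → ℝ) → (Fin 2 → Fin 2 → ℝ) := fun x i j => (F₀ + grad ϑ x) i j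
  have hG' : ConvexOn ℝ univ G' := ⟨convex_univ, fun A _ B _ a b ha hb' hab =>
    hG.2 (mem_univ (Matrix.of A)) (mem_univ (Matrix.of B)) ha hb' hab⟩
  have hGc' : Continuous G' := hc.comp continuous_id
  have hfij : ∀ i j, Integrable (fun x => f x i j) (volume.restrict Ω) := fun i j =>
    Pool.Agent.Helper188.Morrey.integrable_comp hK hb (φ := fun A => (F₀ + A) i j) (by fun_prop)
  have hfi : IntegrableOn f Ω volume := by
    refine Integrable.of_eval fun i => Integrable.of_eval fun j => ?_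
    exact hfij i j
  have hgi : IntegrableOn (G' ∘ f) Ω volume :=
    Pool.Agent.Helper188.Morrey.integrable_comp hK hb (φ := fun A => G (F₀ + A))
      (hc.comp (continuous_const.add continuous_id))
  have hJ := hG'.map_set_average_le hGc'.continuousOn isClosed_univ hv hvt
    (Eventually.of_forall fun _ => mem_univ _) hfi hgi
  have hav : (⨍ x in Ω, f x) = fun i j => F₀ i j := by
    rw [setAverage_eq]
    funext i j
    have h1 : (∫ x in Ω, f x) i j = ∫ x in Ω, f x i j := by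
      have := ((ContinuousLinearMap.proj (R := ℝ) (φ := fun _ : Fin 2 => ℝ) j).comp
        (ContinuousLinearMap.proj (R := ℝ) (φ := fun _ : Fin 2 => Fin 2 → ℝ) i)).integral_comp_comm
          hfi
      exact this.symm
    rw [Pi.smul_apply, Pi.smul_apply, h1]
    have h2 : ∫ x in Ω, f x i j = F₀ i j * (volume Ω).toReal := by
      have e : ∀ x, f x i j = F₀ i j + grad ϑ x i j := fun x => rfl
      simp only [e]
      rw [integral_add, Pool.Agent.Helper188.Morrey.integral_grad hK hΩ hb h0 i j]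
      · simp [Measure.real, mul_comm]
      · exact (integrableOn_const hvt)
      · exact Pool.Agent.Helper188.Morrey.integrable_comp hK hb (φ := fun A => A i j) (by fun_prop)
    rw [h2, smul_eq_mul]
    have hvr : (volume Ω).toReal ≠ 0 := ENNReal.toReal_ne_zero.2 ⟨hv, hvt⟩
    simp only [Measure.real]
    field_simp
  rw [hav] at hJ
  have h3 : G' (fun i j => F₀ i j) = G F₀ := rfl
  rw [h3, setAverage_eq, smul_eq_mul] at hJ
  have hvr : 0 < (volume Ω).toReal := ENNReal.toReal_pos hv hvt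
  have h4 : G F₀ * (volume Ω).toReal ≤ ((volume.real Ω)⁻¹ * ∫ x in Ω, G' (f x))
      * (volume Ω).toReal := mul_le_mul_of_nonneg_right hJ hvr.le
  refine h4.trans (le_of_eq ?_)
  have h5 : volume.real Ω = (volume Ω).toReal := rfl
  rw [h5]
  have h6 : ∫ x in Ω, G' (f x) = ∫ x in Ω, G (F₀ + grad ϑ x) := rfl
  rw [h6]
  field_simp

/-- the inequality of quasiconvexity -/
def Qc (W : Matrix (Fin 2) (Fin 2) ℝ → ℝ) : Prop :=
  ∀ F₀ : Matrix (Fin 2) (Fin 2) ℝ, ∀ Ω : Set (Fin 2 → ℝ), IsOpen Ω → Bornology.IsBounded Ω →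
    ∀ ϑ : (Fin 2 → ℝ) → (Fin 2 → ℝ), (∃ K, LipschitzWith K ϑ) → (∀ x, x ∉ Ω → ϑ x = 0) →
      W F₀ * (volume Ω).toReal ≤
        ∫ x in Ω, W (F₀ + LinearMap.toMatrix'
          ((fderiv ℝ ϑ x : (Fin 2 → ℝ) →L[ℝ] (Fin 2 → ℝ)) : (Fin 2 → ℝ) →ₗ[ℝ] (Fin 2 → ℝ)))

theorem final {W : Matrix (Fin 2) (Fin 2) ℝ → ℝ} (hWc : Continuous W) {c : ℝ}
    (h : ∀ A H, 2 * c * H.det ≤ D2 W A H) :
    ConvexOn ℝ univ (fun A => W A - c * A.det) ∧ Qc W := by
  have hdc : Continuous (fun A : Matrix (Fin 2) (Fin 2) ℝ => c * A.det) :=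
    continuous_const.mul (Continuous.matrix_det continuous_id)
  have hGc : Continuous (fun A => W A - c * A.det) := hWc.sub hdc
  have hconv : ConvexOn ℝ univ (fun A => W A - c * A.det) := by
    refine convex_of_D2 hGc fun A H => ?_
    rw [D2_sub_det]
    linarith [h A H]
  refine ⟨hconv, ?_⟩
  rintro F₀ Ω hΩ hb ϑ ⟨K, hK⟩ h0
  have h1 := int_convex hGc hconv F₀ hΩ hb hK h0
  have h2 := int_det F₀ hΩ hb hK h0
  have hi1 : Integrable (fun x => W (F₀ + grad ϑ x)) (volume.restrict Ω) :=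
    Pool.Agent.Helper188.Morrey.integrable_comp hK hb (φ := fun A => W (F₀ + A))
      (hWc.comp (continuous_const.add continuous_id))
  have hi2 : Integrable (fun x => c * (F₀ + grad ϑ x).det) (volume.restrict Ω) :=
    Pool.Agent.Helper188.Morrey.integrable_comp hK hb (φ := fun A => c * (F₀ + A).det)
      (hdc.comp (continuous_const.add continuous_id))
  rw [integral_sub hi1 hi2, integral_const_mul, h2] at h1
  have h3 : ∫ x in Ω, W (F₀ + grad ϑ x) = ∫ x in Ω, W (F₀ + LinearMap.toMatrix'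
          ((fderiv ℝ ϑ x : (Fin 2 → ℝ) →L[ℝ] (Fin 2 → ℝ)) : (Fin 2 → ℝ) →ₗ[ℝ] (Fin 2 → ℝ))) := rfl
  rw [← h3]
  linarith

lemma rank_mul_mul (P Q H : Matrix (Fin 2) (Fin 2) ℝ) (hP : P.det ≠ 0) (hQ : Q.det ≠ 0) :
    (P * H * Q).rank = H.rank := by
  rw [Matrix.rank_mul_eq_left_of_isUnit_det Q (P * H) (isUnit_iff_ne_zero.2 hQ),
    Matrix.rank_mul_eq_right_of_isUnit_det P H (isUnit_iff_ne_zero.2 hP)]

/-- transfer along `A ↦ P A Q` -/
lemma transfer {W : Matrix (Fin 2) (Fin 2) ℝ → ℝ} {P Q : Matrix (Fin 2) (Fin 2) ℝ}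
    (hP : P.det ≠ 0) (hQ : Q.det ≠ 0)
    (h : ∃ c : ℝ, ∀ A H, 2 * c * H.det ≤ D2 (fun A => W (P * A * Q)) A H) :
    ∃ c : ℝ, ∀ A H, 2 * c * H.det ≤ D2 W A H := by
  obtain ⟨c, hc⟩ := h
  refine ⟨c / (P.det * Q.det), fun A H => ?_⟩
  have hPu : IsUnit P.det := isUnit_iff_ne_zero.2 hP
  have hQu : IsUnit Q.det := isUnit_iff_ne_zero.2 hQ
  have key : ∀ X : Matrix (Fin 2) (Fin 2) ℝ, P * (P⁻¹ * X * Q⁻¹) * Q = X := by
    intro X
    rw [Matrix.mul_assoc P⁻¹ X, ← Matrix.mul_assoc P, Matrix.mul_nonsing_inv P hPu, Matrix.one_mul,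
      Matrix.mul_assoc, Matrix.nonsing_inv_mul Q hQu, Matrix.mul_one]
  have h1 := hc (P⁻¹ * A * Q⁻¹) (P⁻¹ * H * Q⁻¹)
  have h2 : D2 (fun A => W (P * A * Q)) (P⁻¹ * A * Q⁻¹) (P⁻¹ * H * Q⁻¹) = D2 W A H := by
    unfold D2
    simp only [Matrix.mul_add, Matrix.add_mul, Matrix.mul_sub, Matrix.sub_mul, key]
  have h3 : (P⁻¹ * H * Q⁻¹).det * (P.det * Q.det) = H.det := by
    have := congrArg Matrix.det (key H)
    rw [Matrix.det_mul, Matrix.det_mul] at this
    linarith
  rw [h2] at h1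
  refine le_trans (le_of_eq ?_) h1
  rw [← h3]
  field_simp

end Pool.Agent.TH281.Mor
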