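import Pool.Agent.TH281.Mor.Sep

/-!
# Separable rank-one convex functions of `2 × 2` matrices: the constant `c`
-/

set_option autoImplicit false

open Set Filter Topology MeasureTheory Matrix
open Pool.Agent.Helper188.Morrey (RankOneConvex)

namespace Pool.Agent.TH281.Mor

lemma key_ratio (g : ℝ → ℝ) (s₁ k₁ s₂ k₂ : ℝ) :
    ∃ r : ℝ, r * k₁ ^ 2 ≤ g (s₁ + k₁) + g (s₁ - k₁) - 2 * g s₁ ∧
      r * k₂ ^ 2 ≤ g (s₂ + k₂) + g (s₂ - k₂) - 2 * g s₂ ∧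
      ((k₁ = 0 ∧ k₂ = 0) ∨ ∃ s k : ℝ, k ≠ 0 ∧ g (s + k) + g (s - k) - 2 * g s ≤ r * k ^ 2) := by
  have hz : ∀ s : ℝ, g (s + 0) + g (s - 0) - 2 * g s = 0 := by
    intro s; rw [add_zero, sub_zero]; ring
  have hq : ∀ s k : ℝ, k ≠ 0 → (g (s + k) + g (s - k) - 2 * g s) / k ^ 2 * k ^ 2
      = g (s + k) + g (s - k) - 2 * g s := by
    intro s k hk
    exact div_mul_cancel₀ _ (pow_ne_zero 2 hk)
  by_cases h1 : k₁ = 0
  · by_cases h2 : k₂ = 0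
    · subst h1; subst h2
      exact ⟨0, by rw [hz]; simp, by rw [hz]; simp, Or.inl ⟨rfl, rfl⟩⟩
    · subst h1
      exact ⟨(g (s₂ + k₂) + g (s₂ - k₂) - 2 * g s₂) / k₂ ^ 2, by rw [hz]; simp,
        (hq s₂ k₂ h2).le, Or.inr ⟨s₂, k₂, h2, (hq s₂ k₂ h2).ge⟩⟩
  · by_cases h2 : k₂ = 0
    · subst h2
      exact ⟨(g (s₁ + k₁) + g (s₁ - k₁) - 2 * g s₁) / k₁ ^ 2, (hq s₁ k₁ h1).le,
        by rw [hz]; simp, Or.inr ⟨s₁, k₁, h1, (hq s₁ k₁ h1).ge⟩⟩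
    · rcases le_total ((g (s₁ + k₁) + g (s₁ - k₁) - 2 * g s₁) / k₁ ^ 2)
        ((g (s₂ + k₂) + g (s₂ - k₂) - 2 * g s₂) / k₂ ^ 2) with hle | hle
      · exact ⟨(g (s₁ + k₁) + g (s₁ - k₁) - 2 * g s₁) / k₁ ^ 2, (hq s₁ k₁ h1).le,
          (mul_le_mul_of_nonneg_right hle (sq_nonneg _)).trans (hq s₂ k₂ h2).le,
          Or.inr ⟨s₁, k₁, h1, (hq s₁ k₁ h1).ge⟩⟩
      · exact ⟨(g (s₂ + k₂) + g (s₂ - k₂) - 2 * g s₂) / k₂ ^ 2,
          (mul_le_mul_of_nonneg_right hle (sq_nonneg _)).trans (hq s₁ k₁ h1).le,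
          (hq s₂ k₂ h2).le, Or.inr ⟨s₂, k₂, h2, (hq s₂ k₂ h2).ge⟩⟩

lemma continuous_quad (B : Matrix (Fin 2) (Fin 2) ℝ →ₗ[ℝ] Matrix (Fin 2) (Fin 2) ℝ →ₗ[ℝ] ℝ) :
    Continuous (fun A => B A A) := by
  have h : ∀ X : Matrix (Fin 2) (Fin 2) ℝ, Continuous (fun A => B A X) := by
    intro X
    have e : (fun A => B A X) = fun A => A 0 0 * B.flip X !![1, 0; 0, 0]
        + A 0 1 * B.flip X !![0, 1; 0, 0] + A 1 0 * B.flip X !![0, 0; 1, 0]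
        + A 1 1 * B.flip X !![0, 0; 0, 1] := by
      funext A
      rw [← Pool.Agent.Helper188.Morrey.lin_eq (B.flip X) A, LinearMap.flip_apply]
    rw [e]; fun_prop
  have e : (fun A => B A A) = fun A => A 0 0 * B A !![1, 0; 0, 0]
      + A 0 1 * B A !![0, 1; 0, 0] + A 1 0 * B A !![0, 0; 1, 0]
      + A 1 1 * B A !![0, 0; 0, 1] := by
    funext A
    exact Pool.Agent.Helper188.Morrey.lin_eq (B A) A
  rw [e]
  have h1 := h !![1, 0; 0, 0]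
  have h2 := h !![0, 1; 0, 0]
  have h3 := h !![0, 0; 1, 0]
  have h4 := h !![0, 0; 0, 1]
  fun_prop

/-- sums of a quadratic form and an additively separable function -/
theorem sep_c {ℓ : Fin 4 → (Matrix (Fin 2) (Fin 2) ℝ →ₗ[ℝ] ℝ)} (hℓ : LinearIndependent ℝ ℓ)
    (B : Matrix (Fin 2) (Fin 2) ℝ →ₗ[ℝ] Matrix (Fin 2) (Fin 2) ℝ →ₗ[ℝ] ℝ)
    (g : Fin 4 → ℝ → ℝ) (W : Matrix (Fin 2) (Fin 2) ℝ → ℝ)
    (hWg : ∀ A, W A = B A A + ∑ i, g i (ℓ i A))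
    (hW : RankOneConvex W) : ∃ c : ℝ, ∀ A H, 2 * c * H.det ≤ D2 W A H := by
  obtain ⟨e, he⟩ := exists_coord hℓ
  have hWc : Continuous W := Pool.Agent.Helper188.Morrey.RankOneConvex.continuous hW
  have hcoord : ∀ (x : Fin 4 → ℝ) i, ℓ i (e.symm x) = x i := by
    intro x i; rw [← he, LinearEquiv.apply_symm_apply]
  have hD : ∀ A H, D2 W A H = 2 * B H H
      + ∑ i, (g i (ℓ i A + ℓ i H) + g i (ℓ i A - ℓ i H) - 2 * g i (ℓ i A)) := by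
    intro A H
    have h1 : ∑ i, (g i (ℓ i A + ℓ i H) + g i (ℓ i A - ℓ i H) - 2 * g i (ℓ i A))
        = ∑ i, g i (ℓ i (A + H)) + ∑ i, g i (ℓ i (A - H)) - 2 * ∑ i, g i (ℓ i A) := by
      rw [Finset.mul_sum, ← Finset.sum_add_distrib, ← Finset.sum_sub_distrib]
      refine Finset.sum_congr rfl fun i _ => ?_
      rw [map_add, map_sub]
    unfold D2
    rw [h1, hWg, hWg, hWg]
    simp only [map_add, map_sub, LinearMap.add_apply, LinearMap.sub_apply]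
    ring
  have hgc : ∀ i, Continuous (g i) := by
    intro i
    have h1 : ∀ t : ℝ, W (e.symm (Pi.single i t))
        = B (e.symm (Pi.single i t)) (e.symm (Pi.single i t))
          + (g i t + ∑ j ∈ Finset.univ.erase i, g j 0) := by
      intro t
      rw [hWg, ← Finset.add_sum_erase _ _ (Finset.mem_univ i), hcoord, Pi.single_eq_same]
      congr 2
      refine Finset.sum_congr rfl fun j hj => ?_
      rw [hcoord, Pi.single_eq_of_ne (Finset.ne_of_mem_erase hj)]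
    have h2 : g i = fun t => W (e.symm (Pi.single i t))
        - B (e.symm (Pi.single i t)) (e.symm (Pi.single i t))
        - ∑ j ∈ Finset.univ.erase i, g j 0 := by
      funext t; rw [h1]; ring
    rw [h2]
    have h3 : Continuous (fun t : ℝ => e.symm (Pi.single i t)) := by
      have : (fun t : ℝ => e.symm (Pi.single i t)) = fun t : ℝ => t • e.symm (Pi.single i 1) := by
        funext t
        rw [← map_smul]
        congr 1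
        funext j
        by_cases hj : j = i
        · subst hj; simp
        · simp [Pi.single_eq_of_ne hj]
      rw [this]
      exact continuous_id.smul continuous_const
    exact ((hWc.comp h3).sub ((continuous_quad B).comp h3)).sub continuous_const
  refine exists_c hW fun A₁ H₁ A₂ H₂ c h1 h2 q1 q2 => ?_
  choose r hr1 hr2 hr3 using fun i => key_ratio (g i) (ℓ i A₁) (ℓ i H₁) (ℓ i A₂) (ℓ i H₂)
  have p1 : 2 * B H₁ H₁ + ∑ i, r i * (ℓ i H₁) ^ 2 < 2 * c * H₁.det := by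
    refine lt_of_le_of_lt ?_ q1
    rw [hD]
    exact add_le_add le_rfl (Finset.sum_le_sum fun i _ => hr1 i)
  have p2 : 2 * B H₂ H₂ + ∑ i, r i * (ℓ i H₂) ^ 2 < 2 * c * H₂.det := by
    refine lt_of_le_of_lt ?_ q2
    rw [hD]
    exact add_le_add le_rfl (Finset.sum_le_sum fun i _ => hr2 i)
  obtain ⟨β, hdet, hneg⟩ := s_lemma (fun H => 2 * B H H + ∑ i, r i * (ℓ i H) ^ 2) c H₁ H₂
    (2 * (B H₁ H₂ + B H₂ H₁) + ∑ i, 2 * (r i * (ℓ i H₁ * ℓ i H₂))) (by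
      intro s
      have hQ : ∑ i, r i * (ℓ i (H₁ + s • H₂)) ^ 2 = ∑ i, r i * (ℓ i H₁) ^ 2
          + s * ∑ i, 2 * (r i * (ℓ i H₁ * ℓ i H₂)) + s ^ 2 * ∑ i, r i * (ℓ i H₂) ^ 2 := by
        rw [Finset.mul_sum, Finset.mul_sum, ← Finset.sum_add_distrib, ← Finset.sum_add_distrib]
        refine Finset.sum_congr rfl fun i _ => ?_
        rw [map_add, map_smul, smul_eq_mul]
        ring
      rw [hQ]
      simp only [map_add, map_smul, LinearMap.add_apply, LinearMap.smul_apply, smul_eq_mul]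
      ring) h1 h2 p1 p2
  set H : Matrix (Fin 2) (Fin 2) ℝ := H₁ + β • H₂ with hH
  set N : ℝ := ∑ i, (ℓ i H) ^ 2 with hN
  have hN0 : 0 ≤ N := Finset.sum_nonneg fun i _ => sq_nonneg _
  set q : ℝ := 2 * B H H + ∑ i, r i * (ℓ i H) ^ 2 with hq
  set ε : ℝ := -q / (2 * (N + 1)) with hε
  have hε0 : 0 < ε := by
    rw [hε]; apply div_pos (by linarith) (by linarith)
  have hstep : ∀ i, ∃ τ₀ : ℝ, 0 < τ₀ ∧ ∀ τ : ℝ, 0 < τ → τ ≤ τ₀ → ∃ s' : ℝ,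
      g i (s' + τ * ℓ i H) + g i (s' - τ * ℓ i H) - 2 * g i s' ≤ (r i + ε) * (τ * ℓ i H) ^ 2 := by
    intro i
    by_cases h0 : ℓ i H = 0
    · refine ⟨1, one_pos, fun τ _ _ => ⟨0, ?_⟩⟩
      rw [h0, mul_zero, add_zero, sub_zero]
      apply le_of_eq; ring
    · rcases hr3 i with ⟨ha, hb⟩ | ⟨s, k, hk, hsk⟩
      · exfalso; apply h0
        rw [hH, map_add, map_smul, ha, hb]; simp
      · exact sub_step (hgc i) hk hsk h0 hε0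
  choose τ₀ hτ₀ hs using hstep
  set τ : ℝ := min (min (τ₀ 0) (τ₀ 1)) (min (τ₀ 2) (τ₀ 3)) with hτ
  have hτpos : 0 < τ := lt_min (lt_min (hτ₀ 0) (hτ₀ 1)) (lt_min (hτ₀ 2) (hτ₀ 3))
  have hτle : ∀ i, τ ≤ τ₀ i := by
    intro i
    fin_cases i
    · exact (min_le_left _ _).trans (min_le_left _ _)
    · exact (min_le_left _ _).trans (min_le_right _ _)
    · exact (min_le_right _ _).trans (min_le_left _ _)
    · exact (min_le_right _ _).trans (min_le_right _ _)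
  choose s' hs' using fun i => hs i τ hτpos (hτle i)
  have h3 := D2_roc hW (e.symm s') (τ • H) (by
    rw [Matrix.det_smul, hdet, mul_zero])
  rw [hD] at h3
  have h4 : ∑ i, (g i (ℓ i (e.symm s') + ℓ i (τ • H)) + g i (ℓ i (e.symm s') - ℓ i (τ • H))
      - 2 * g i (ℓ i (e.symm s'))) ≤ ∑ i, (r i + ε) * (τ * ℓ i H) ^ 2 := by
    refine Finset.sum_le_sum fun i _ => ?_
    rw [hcoord, map_smul, smul_eq_mul]
    exact hs' i
  have h5 : 2 * B (τ • H) (τ • H) + ∑ i, (r i + ε) * (τ * ℓ i H) ^ 2 = τ ^ 2 * (q + ε * N) := by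
    have h51 : ∑ i, (r i + ε) * (τ * ℓ i H) ^ 2 = τ ^ 2 * (∑ i, r i * (ℓ i H) ^ 2 + ε * N) := by
      rw [hN, Finset.mul_sum, ← Finset.sum_add_distrib, Finset.mul_sum]
      refine Finset.sum_congr rfl fun i _ => ?_
      ring
    rw [h51, hq]
    simp only [map_smul, LinearMap.smul_apply, smul_eq_mul]
    ring
  have h6 : q + ε * N < 0 := by
    have h7 : ε * (2 * (N + 1)) = -q := by
      rw [hε]; exact div_mul_cancel₀ _ (by positivity)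
    have h8 : 0 < ε * (N + 2) := by positivity
    nlinarith
  have h9 : τ ^ 2 * (q + ε * N) < 0 :=
    mul_neg_of_pos_of_neg (by positivity) h6
  linarith

/-- the matrix with conformal part `(z₁, z₂)` and anticonformal part `(w₁, w₂)` -/
noncomputable def mk4 (z₁ z₂ w₁ w₂ : ℝ) : Matrix (Fin 2) (Fin 2) ℝ :=
  !![(z₁ + w₁) / 2, (w₂ - z₂) / 2; (z₂ + w₂) / 2, (z₁ - w₁) / 2]

/-- sums of a function of the conformal part and a function of the anticonformal part -/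
theorem plane_c (a b : ℝ → ℝ → ℝ) (W : Matrix (Fin 2) (Fin 2) ℝ → ℝ)
    (hWg : ∀ A, W A = a (A 0 0 + A 1 1) (A 1 0 - A 0 1) + b (A 0 0 - A 1 1) (A 1 0 + A 0 1))
    (hW : RankOneConvex W) : ∃ c : ℝ, ∀ A H, 2 * c * H.det ≤ D2 W A H := by
  have hWc : Continuous W := Pool.Agent.Helper188.Morrey.RankOneConvex.continuous hW
  have hmk : ∀ z₁ z₂ w₁ w₂, W (mk4 z₁ z₂ w₁ w₂) = a z₁ z₂ + b w₁ w₂ := by
    intro z₁ z₂ w₁ w₂
    rw [hWg]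
    simp only [mk4, Matrix.of_apply, Matrix.cons_val', Matrix.cons_val_zero, Matrix.cons_val_one,
      Matrix.cons_val_fin_one, Matrix.empty_val']
    congr 1 <;> congr 1 <;> ring
  have hmkc : Continuous (fun p : ℝ × ℝ × ℝ × ℝ => mk4 p.1 p.2.1 p.2.2.1 p.2.2.2) := by
    unfold mk4
    fun_prop
  have hac : Continuous (fun p : ℝ × ℝ => a p.1 p.2) := by
    have h1 : (fun p : ℝ × ℝ => a p.1 p.2)
        = fun p : ℝ × ℝ => W (mk4 p.1 p.2 0 0) - b 0 0 := by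
      funext p; rw [hmk]; ring
    rw [h1]
    have h2 : Continuous (fun p : ℝ × ℝ => mk4 p.1 p.2 0 0) := by unfold mk4; fun_prop
    exact (hWc.comp h2).sub continuous_const
  have hbc : Continuous (fun p : ℝ × ℝ => b p.1 p.2) := by
    have h1 : (fun p : ℝ × ℝ => b p.1 p.2)
        = fun p : ℝ × ℝ => W (mk4 0 0 p.1 p.2) - a 0 0 := by
      funext p; rw [hmk]; ring
    rw [h1]
    have h2 : Continuous (fun p : ℝ × ℝ => mk4 0 0 p.1 p.2) := by unfold mk4; fun_prop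
    exact (hWc.comp h2).sub continuous_const
  set X : Set ℝ := {x | ∃ z₁ z₂ h₁ h₂ : ℝ, 0 < h₁ ^ 2 + h₂ ^ 2 ∧
    x = (a (z₁ + h₁) (z₂ + h₂) + a (z₁ - h₁) (z₂ - h₂) - 2 * a z₁ z₂) / (h₁ ^ 2 + h₂ ^ 2)} with hX
  set Y : Set ℝ := {x | ∃ z₁ z₂ h₁ h₂ : ℝ, 0 < h₁ ^ 2 + h₂ ^ 2 ∧
    x = -((b (z₁ + h₁) (z₂ + h₂) + b (z₁ - h₁) (z₂ - h₂) - 2 * b z₁ z₂) / (h₁ ^ 2 + h₂ ^ 2))}
    with hY
  have hXn : X.Nonempty := ⟨_, 0, 0, 1, 0, by norm_num, rfl⟩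
  have hYn : Y.Nonempty := ⟨_, 0, 0, 1, 0, by norm_num, rfl⟩
  -- one plane along a unit direction
  have hone : ∀ (f : ℝ → ℝ → ℝ), Continuous (fun p : ℝ × ℝ => f p.1 p.2) →
      ∀ (z₁ z₂ h₁ h₂ ε : ℝ), 0 < h₁ ^ 2 + h₂ ^ 2 → 0 < ε →
      ∃ u₁ u₂ τ₀ : ℝ, u₁ ^ 2 + u₂ ^ 2 = 1 ∧ 0 < τ₀ ∧ ∀ τ : ℝ, 0 < τ → τ ≤ τ₀ →
        ∃ y₁ y₂ : ℝ, f (y₁ + τ * u₁) (y₂ + τ * u₂) + f (y₁ - τ * u₁) (y₂ - τ * u₂) - 2 * f y₁ y₂ ≤
          ((f (z₁ + h₁) (z₂ + h₂) + f (z₁ - h₁) (z₂ - h₂) - 2 * f z₁ z₂) / (h₁ ^ 2 + h₂ ^ 2) + ε)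
            * τ ^ 2 := by
    intro f hf z₁ z₂ h₁ h₂ ε hh hε
    set ρ : ℝ := Real.sqrt (h₁ ^ 2 + h₂ ^ 2) with hρ
    have hρ0 : 0 < ρ := Real.sqrt_pos.2 hh
    have hρ2 : ρ ^ 2 = h₁ ^ 2 + h₂ ^ 2 := Real.sq_sqrt hh.le
    have hg : Continuous (fun t : ℝ => f (z₁ + t * (h₁ / ρ)) (z₂ + t * (h₂ / ρ))) := by
      have h1 : Continuous (fun t : ℝ => ((z₁ + t * (h₁ / ρ), z₂ + t * (h₂ / ρ)) : ℝ × ℝ)) := by
        fun_prop
      exact hf.comp h1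
    have e1 : ρ * (h₁ / ρ) = h₁ := by field_simp
    have e2 : ρ * (h₂ / ρ) = h₂ := by field_simp
    have hr : (fun t : ℝ => f (z₁ + t * (h₁ / ρ)) (z₂ + t * (h₂ / ρ))) (0 + ρ)
        + (fun t : ℝ => f (z₁ + t * (h₁ / ρ)) (z₂ + t * (h₂ / ρ))) (0 - ρ)
        - 2 * (fun t : ℝ => f (z₁ + t * (h₁ / ρ)) (z₂ + t * (h₂ / ρ))) 0 ≤
        ((f (z₁ + h₁) (z₂ + h₂) + f (z₁ - h₁) (z₂ - h₂) - 2 * f z₁ z₂) / (h₁ ^ 2 + h₂ ^ 2))
          * ρ ^ 2 := by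
      simp only [zero_add, zero_sub, neg_mul, zero_mul, add_zero, e1, e2]
      rw [hρ2, div_mul_cancel₀ _ hh.ne']
      apply le_of_eq
      rw [sub_eq_add_neg z₁, sub_eq_add_neg z₂]
    obtain ⟨τ₀, hτ₀, hτ⟩ := sub_step hg hρ0.ne' hr one_ne_zero hε
    refine ⟨h₁ / ρ, h₂ / ρ, τ₀, ?_, hτ₀, fun τ h0 h1 => ?_⟩
    · rw [div_pow, div_pow, ← add_div, ← hρ2, div_self (by positivity)]
    · obtain ⟨s', hs'⟩ := hτ τ h0 h1
      refine ⟨z₁ + s' * (h₁ / ρ), z₂ + s' * (h₂ / ρ), ?_⟩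
      simp only [mul_one] at hs'
      convert hs' using 3
      · congr 1 <;> ring
      · congr 1 <;> ring
  have hYX : ∀ y ∈ Y, ∀ x ∈ X, y ≤ x := by
    rintro y ⟨w₁, w₂, k₁, k₂, hk, rfl⟩ x ⟨z₁, z₂, h₁, h₂, hh, rfl⟩
    by_contra hlt
    push Not at hlt
    set r₁ : ℝ := (a (z₁ + h₁) (z₂ + h₂) + a (z₁ - h₁) (z₂ - h₂) - 2 * a z₁ z₂)
      / (h₁ ^ 2 + h₂ ^ 2) with hr₁
    set r₂ : ℝ := (b (w₁ + k₁) (w₂ + k₂) + b (w₁ - k₁) (w₂ - k₂) - 2 * b w₁ w₂)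
      / (k₁ ^ 2 + k₂ ^ 2) with hr₂
    have hε : 0 < -(r₁ + r₂) / 4 := by linarith
    obtain ⟨u₁, u₂, τ₁, hu, hτ₁, H1⟩ := hone a hac z₁ z₂ h₁ h₂ _ hh hε
    obtain ⟨v₁, v₂, τ₂, hv, hτ₂, H2⟩ := hone b hbc w₁ w₂ k₁ k₂ _ hk hε
    set τ : ℝ := min τ₁ τ₂ with hτ
    have hτ0 : 0 < τ := lt_min hτ₁ hτ₂
    obtain ⟨y₁, y₂, Hy⟩ := H1 τ hτ0 (min_le_left _ _)
    obtain ⟨x₁, x₂, Hx⟩ := H2 τ hτ0 (min_le_right _ _)
    rw [← hr₁] at Hy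
    rw [← hr₂] at Hx
    have h3 := D2_roc hW (mk4 y₁ y₂ x₁ x₂) (mk4 (τ * u₁) (τ * u₂) (τ * v₁) (τ * v₂)) (by
      rw [Matrix.det_fin_two]
      simp only [mk4, Matrix.of_apply, Matrix.cons_val', Matrix.cons_val_zero, Matrix.cons_val_one,
        Matrix.cons_val_fin_one, Matrix.empty_val']
      have : τ ^ 2 * (u₁ ^ 2 + u₂ ^ 2) = τ ^ 2 * (v₁ ^ 2 + v₂ ^ 2) := by rw [hu, hv]
      linear_combination this / 4)
    have hadd : mk4 y₁ y₂ x₁ x₂ + mk4 (τ * u₁) (τ * u₂) (τ * v₁) (τ * v₂)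
        = mk4 (y₁ + τ * u₁) (y₂ + τ * u₂) (x₁ + τ * v₁) (x₂ + τ * v₂) := by
      ext i j
      fin_cases i <;> fin_cases j <;> simp [mk4] <;> ring
    have hsub : mk4 y₁ y₂ x₁ x₂ - mk4 (τ * u₁) (τ * u₂) (τ * v₁) (τ * v₂)
        = mk4 (y₁ - τ * u₁) (y₂ - τ * u₂) (x₁ - τ * v₁) (x₂ - τ * v₂) := by
      ext i j
      fin_cases i <;> fin_cases j <;> simp [mk4] <;> ring
    unfold D2 at h3
    rw [hadd, hsub, hmk, hmk, hmk] at h3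
    have h4 : 0 < τ ^ 2 := by positivity
    have h5 : (r₁ + -(r₁ + r₂) / 4) * τ ^ 2 + (r₂ + -(r₁ + r₂) / 4) * τ ^ 2
        = (r₁ + r₂) / 2 * τ ^ 2 := by ring
    have h6 : (r₁ + r₂) / 2 * τ ^ 2 < 0 := mul_neg_of_neg_of_pos (by linarith) h4
    linarith
  obtain ⟨c, hcY, hcX⟩ := exists_between_of_forall_le hYn hXn hYX
  have hA : ∀ z₁ z₂ h₁ h₂ : ℝ, c * (h₁ ^ 2 + h₂ ^ 2) ≤
      a (z₁ + h₁) (z₂ + h₂) + a (z₁ - h₁) (z₂ - h₂) - 2 * a z₁ z₂ := by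
    intro z₁ z₂ h₁ h₂
    rcases (add_nonneg (sq_nonneg h₁) (sq_nonneg h₂)).eq_or_lt with h0 | h0
    · have e1 : h₁ = 0 := by nlinarith [sq_nonneg h₁, sq_nonneg h₂]
      have e2 : h₂ = 0 := by nlinarith [sq_nonneg h₁, sq_nonneg h₂]
      subst e1; subst e2
      rw [add_zero, add_zero, sub_zero, sub_zero]
      apply le_of_eq; ring
    · have h1 := hcX ⟨z₁, z₂, h₁, h₂, h0, rfl⟩
      rwa [le_div_iff₀ h0] at h1
  have hB : ∀ z₁ z₂ h₁ h₂ : ℝ, -c * (h₁ ^ 2 + h₂ ^ 2) ≤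
      b (z₁ + h₁) (z₂ + h₂) + b (z₁ - h₁) (z₂ - h₂) - 2 * b z₁ z₂ := by
    intro z₁ z₂ h₁ h₂
    rcases (add_nonneg (sq_nonneg h₁) (sq_nonneg h₂)).eq_or_lt with h0 | h0
    · have e1 : h₁ = 0 := by nlinarith [sq_nonneg h₁, sq_nonneg h₂]
      have e2 : h₂ = 0 := by nlinarith [sq_nonneg h₁, sq_nonneg h₂]
      subst e1; subst e2
      rw [add_zero, add_zero, sub_zero, sub_zero]
      apply le_of_eq; ring
    · have h1 := hcY ⟨z₁, z₂, h₁, h₂, h0, rfl⟩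
      have h2 : -c ≤ (b (z₁ + h₁) (z₂ + h₂) + b (z₁ - h₁) (z₂ - h₂) - 2 * b z₁ z₂)
          / (h₁ ^ 2 + h₂ ^ 2) := by linarith
      rwa [le_div_iff₀ h0] at h2
  refine ⟨2 * c, fun A H => ?_⟩
  have e := hA (A 0 0 + A 1 1) (A 1 0 - A 0 1) (H 0 0 + H 1 1) (H 1 0 - H 0 1)
  have f := hB (A 0 0 - A 1 1) (A 1 0 + A 0 1) (H 0 0 - H 1 1) (H 1 0 + H 0 1)
  unfold D2
  rw [hWg, hWg, hWg, Matrix.det_fin_two]
  simp only [Matrix.add_apply, Matrix.sub_apply]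
  have r1 : A 0 0 + H 0 0 + (A 1 1 + H 1 1) = A 0 0 + A 1 1 + (H 0 0 + H 1 1) := by ring
  have r2 : A 1 0 + H 1 0 - (A 0 1 + H 0 1) = A 1 0 - A 0 1 + (H 1 0 - H 0 1) := by ring
  have r3 : A 0 0 + H 0 0 - (A 1 1 + H 1 1) = A 0 0 - A 1 1 + (H 0 0 - H 1 1) := by ring
  have r4 : A 1 0 + H 1 0 + (A 0 1 + H 0 1) = A 1 0 + A 0 1 + (H 1 0 + H 0 1) := by ring
  have r5 : A 0 0 - H 0 0 + (A 1 1 - H 1 1) = A 0 0 + A 1 1 - (H 0 0 + H 1 1) := by ring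
  have r6 : A 1 0 - H 1 0 - (A 0 1 - H 0 1) = A 1 0 - A 0 1 - (H 1 0 - H 0 1) := by ring
  have r7 : A 0 0 - H 0 0 - (A 1 1 - H 1 1) = A 0 0 - A 1 1 - (H 0 0 - H 1 1) := by ring
  have r8 : A 1 0 - H 1 0 + (A 0 1 - H 0 1) = A 1 0 + A 0 1 - (H 1 0 + H 0 1) := by ring
  rw [r1, r2, r3, r4, r5, r6, r7, r8]
  nlinarith

end Pool.Agent.TH281.Mor
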