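import Pool.Agent.TH281.Mor.Step

/-!
# Separable rank-one convex functions of `2 × 2` matrices
-/

set_option autoImplicit false

open Set Filter Topology MeasureTheory Matrix
open Pool.Agent.Helper188.Morrey (RankOneConvex)

namespace Pool.Agent.TH281.Mor

/-- second differences -/
def D2 (W : Matrix (Fin 2) (Fin 2) ℝ → ℝ) (A H : Matrix (Fin 2) (Fin 2) ℝ) : ℝ :=
  W (A + H) + W (A - H) - 2 * W A

lemma D2_roc {W : Matrix (Fin 2) (Fin 2) ℝ → ℝ} (hW : RankOneConvex W)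
    (A H : Matrix (Fin 2) (Fin 2) ℝ) (hd : H.det = 0) : 0 ≤ D2 W A H := by
  have := Pool.Agent.W779.Morrey.roc_mid hW A H hd
  unfold D2; linarith

/-- the constant -/
lemma exists_c {W : Matrix (Fin 2) (Fin 2) ℝ → ℝ} (hW : RankOneConvex W)
    (h : ∀ (A₁ H₁ A₂ H₂ : Matrix (Fin 2) (Fin 2) ℝ) (c : ℝ), 0 < H₁.det → H₂.det < 0 →
      D2 W A₁ H₁ < 2 * c * H₁.det → D2 W A₂ H₂ < 2 * c * H₂.det → False) :
    ∃ c : ℝ, ∀ A H, 2 * c * H.det ≤ D2 W A H := by
  set X : Set ℝ := {x | ∃ A H : Matrix (Fin 2) (Fin 2) ℝ, 0 < H.det ∧ x = D2 W A H / (2 * H.det)}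
    with hX
  set Y : Set ℝ := {y | ∃ A H : Matrix (Fin 2) (Fin 2) ℝ, H.det < 0 ∧ y = D2 W A H / (2 * H.det)}
    with hY
  have hXn : X.Nonempty := ⟨_, 0, 1, by simp, rfl⟩
  have hYn : Y.Nonempty := ⟨_, 0, !![1, 0; 0, -1], by simp [Matrix.det_fin_two], rfl⟩
  have hYX : ∀ y ∈ Y, ∀ x ∈ X, y ≤ x := by
    rintro y ⟨A₂, H₂, hd2, rfl⟩ x ⟨A₁, H₁, hd1, rfl⟩
    by_contra hlt
    push Not at hlt
    obtain ⟨c, hc1, hc2⟩ := exists_between hlt
    refine h A₁ H₁ A₂ H₂ c hd1 hd2 ?_ ?_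
    · rw [div_lt_iff₀ (by linarith)] at hc1
      linarith
    · rw [lt_div_iff_of_neg (by linarith)] at hc2
      linarith
  obtain ⟨c, hcY, hcX⟩ := exists_between_of_forall_le hYn hXn hYX
  refine ⟨c, fun A H => ?_⟩
  rcases lt_trichotomy H.det 0 with hd | hd | hd
  · have h1 := hcY ⟨A, H, hd, rfl⟩
    rw [div_le_iff_of_neg (by linarith)] at h1
    linarith
  · rw [hd, mul_zero]
    exact D2_roc hW A H hd
  · have h1 := hcX ⟨A, H, hd, rfl⟩
    rw [le_div_iff₀ (by linarith)] at h1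
    linarith

/-- the S-lemma step: a quadratic form `Q` with `Q < 2c det` at a matrix of positive and at a matrix
of negative determinant is negative at some singular matrix of their span -/
lemma s_lemma (Q : Matrix (Fin 2) (Fin 2) ℝ → ℝ) (c : ℝ)
    (H₁ H₂ : Matrix (Fin 2) (Fin 2) ℝ) (p : ℝ)
    (hQ : ∀ s : ℝ, Q (H₁ + s • H₂) = Q H₁ + s * p + s ^ 2 * Q H₂)
    (h1 : 0 < H₁.det) (h2 : H₂.det < 0)
    (q1 : Q H₁ < 2 * c * H₁.det) (q2 : Q H₂ < 2 * c * H₂.det) :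
    ∃ b : ℝ, (H₁ + b • H₂).det = 0 ∧ Q (H₁ + b • H₂) < 0 := by
  -- the cross term
  have hdet : ∀ s : ℝ, (H₁ + s • H₂).det = H₁.det
      + s * (H₁ 0 0 * H₂ 1 1 + H₂ 0 0 * H₁ 1 1 - H₁ 0 1 * H₂ 1 0 - H₂ 0 1 * H₁ 1 0)
      + s ^ 2 * H₂.det := by
    intro s
    simp only [Matrix.det_fin_two, Matrix.add_apply, Matrix.smul_apply, smul_eq_mul]
    ring
  set m : ℝ := H₁ 0 0 * H₂ 1 1 + H₂ 0 0 * H₁ 1 1 - H₁ 0 1 * H₂ 1 0 - H₂ 0 1 * H₁ 1 0 with hm
  set u : ℝ := Q H₁ with hu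
  set v : ℝ := Q H₂ with hv
  -- zeros of the determinant on both sides
  have hzero : ∀ σ : ℝ, (σ = 1 ∨ σ = -1) → ∃ s : ℝ, 0 ≤ s ∧ (H₁ + (σ * s) • H₂).det = 0 := by
    intro σ hσ
    have hσ2 : σ ^ 2 = 1 := by rcases hσ with e | e <;> rw [e] <;> norm_num
    have hcont : Continuous (fun s : ℝ => (H₁ + (σ * s) • H₂).det) := by
      simp only [hdet]; fun_prop
    set T : ℝ := (|m| + H₁.det) / (-H₂.det) + 1 with hT
    have hn : 0 < -H₂.det := by linarith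
    have hT1 : 1 ≤ T := by
      have : 0 ≤ (|m| + H₁.det) / (-H₂.det) := by positivity
      linarith
    have hTm : T * (-H₂.det) = (|m| + H₁.det) + (-H₂.det) := by
      rw [hT, add_mul, div_mul_cancel₀ _ hn.ne', one_mul]
    have hneg : (H₁ + (σ * T) • H₂).det ≤ 0 := by
      rw [hdet, mul_pow, hσ2, one_mul]
      have h3 : σ * T * m ≤ T * |m| := by
        rcases hσ with e | e
        · rw [e, one_mul]; exact mul_le_mul_of_nonneg_left (le_abs_self m) (by linarith)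
        · rw [e]
          have := mul_le_mul_of_nonneg_left (neg_abs_le m) (by linarith : 0 ≤ T)
          nlinarith
      have h4 : H₁.det ≤ T * H₁.det := by nlinarith
      have h5 : T ^ 2 * H₂.det = -(T * (|m| + H₁.det + (-H₂.det))) := by
        rw [← hTm]; ring
      rw [h5]
      nlinarith
    have h0 : 0 ≤ (H₁ + (σ * 0) • H₂).det := by
      rw [mul_zero, zero_smul, add_zero]; exact h1.le
    obtain ⟨s, hs, hs0⟩ := intermediate_value_Icc' (by linarith : (0:ℝ) ≤ T) hcont.continuousOn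
      ⟨hneg, h0⟩
    exact ⟨s, hs.1, hs0⟩
  -- choose the sign
  rcases le_total (p - 2 * c * m) 0 with hsg | hsg
  · obtain ⟨s, hs, hs0⟩ := hzero 1 (Or.inl rfl)
    rw [one_mul] at hs0
    refine ⟨s, hs0, ?_⟩
    rw [hQ s]
    have h3 := hdet s
    rw [hs0] at h3
    have h4 : s * (p - 2 * c * m) ≤ 0 := mul_nonpos_of_nonneg_of_nonpos hs hsg
    have h5 : s ^ 2 * (v - 2 * c * H₂.det) ≤ 0 :=
      mul_nonpos_of_nonneg_of_nonpos (sq_nonneg s) (by linarith)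
    have h6 : 2 * c * (H₁.det + s * m + s ^ 2 * H₂.det) = 0 := by rw [← h3, mul_zero]
    nlinarith
  · obtain ⟨s, hs, hs0⟩ := hzero (-1) (Or.inr rfl)
    refine ⟨-1 * s, hs0, ?_⟩
    rw [hQ (-1 * s)]
    have h3 := hdet (-1 * s)
    rw [hs0] at h3
    have h4 : 0 ≤ s * (p - 2 * c * m) := mul_nonneg hs hsg
    have h5 : s ^ 2 * (v - 2 * c * H₂.det) ≤ 0 :=
      mul_nonpos_of_nonneg_of_nonpos (sq_nonneg s) (by linarith)
    have h6 : 2 * c * (H₁.det + -1 * s * m + (-1 * s) ^ 2 * H₂.det) = 0 := by rw [← h3, mul_zero]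
    nlinarith

section sep

variable {ℓ : Fin 4 → (Matrix (Fin 2) (Fin 2) ℝ →ₗ[ℝ] ℝ)}

/-- coordinates -/
lemma exists_coord (hℓ : LinearIndependent ℝ ℓ) :
    ∃ e : Matrix (Fin 2) (Fin 2) ℝ ≃ₗ[ℝ] (Fin 4 → ℝ), ∀ A i, e A i = ℓ i A := by
  have hfr : Module.finrank ℝ (Matrix (Fin 2) (Fin 2) ℝ) = 4 := by
    rw [Module.finrank_matrix]; simp
  have hinj : Function.Injective (LinearMap.pi ℓ) := by
    rw [← LinearMap.ker_eq_bot, LinearMap.ker_eq_bot']
    intro A hA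
    have h1 : ∀ i, ℓ i A = 0 := fun i => congrFun hA i
    have hspan : Submodule.span ℝ (Set.range ℓ) = ⊤ := by
      refine hℓ.span_eq_top_of_card_eq_finrank' ?_
      rw [Fintype.card_fin, Subspace.dual_finrank_eq, hfr]
    rw [← Module.forall_dual_apply_eq_zero_iff ℝ A]
    intro φ
    have hφ : φ ∈ Submodule.span ℝ (Set.range ℓ) := by rw [hspan]; trivial
    induction hφ using Submodule.span_induction with
    | mem x hx => obtain ⟨i, rfl⟩ := hx; exact h1 i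
    | zero => rfl
    | add x y _ _ hx hy => rw [LinearMap.add_apply, hx, hy, add_zero]
    | smul a x _ hx => rw [LinearMap.smul_apply, hx, smul_zero]
  refine ⟨LinearEquiv.ofInjectiveOfFinrankEq (LinearMap.pi ℓ) hinj (by rw [hfr]; simp), fun A i => ?_⟩
  rfl

end sep

end Pool.Agent.TH281.Mor
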