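import Pool.Agent.W779.Morrey.Iso
import Pool.Agent.Helper188.Morrey.Transport

/-!
# Separable rank-one convex functions: elementary one-variable steps
-/

set_option autoImplicit false

open Set Filter Topology

namespace Pool.Agent.TH281.Mor

/-- if all second differences with step `η` are nonnegative, the graph lies above the chord
direction -/
lemma slope_up (G : ℝ → ℝ) (η : ℝ) (h : ∀ x, 0 ≤ G (x + η) + G (x - η) - 2 * G x) :
    ∀ (n : ℕ) (x : ℝ), n * (G (x + η) - G x) ≤ G (x + n * η) - G x := by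
  intro n
  induction n with
  | zero => intro x; simp
  | succ n ih =>
    intro x
    have h1 := ih (x + η)
    have h2 := h (x + η)
    have e1 : x + η - η = x := by ring
    have e2 : x + η + n * η = x + ((n + 1 : ℕ) : ℝ) * η := by push_cast; ring
    rw [e1] at h2
    rw [e2] at h1
    have h3 : (n : ℝ) * (G (x + η) - G x) ≤ n * (G (x + η + η) - G (x + η)) :=
      mul_le_mul_of_nonneg_left (by linarith) (Nat.cast_nonneg n)
    push_cast at h1 ⊢
    nlinarith

lemma second_n (G : ℝ → ℝ) (η : ℝ) (h : ∀ x, 0 ≤ G (x + η) + G (x - η) - 2 * G x) (n : ℕ)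
    (x : ℝ) : 0 ≤ G (x + n * η) + G (x - n * η) - 2 * G x := by
  have h1 := slope_up G η h n x
  have h2 := slope_up G (-η) (fun y => by
    have := h y
    have e1 : y + -η = y - η := by ring
    have e2 : y - -η = y + η := by ring
    rw [e1, e2]; linarith) n x
  have e1 : x + -η = x - η := by ring
  have e2 : x + n * -η = x - n * η := by ring
  rw [e1, e2] at h2
  have h3 := mul_nonneg (Nat.cast_nonneg (α := ℝ) n) (h x)
  nlinarith

/-- **Subdivision.** A second difference quotient can be reached, up to `ε`, at all small steps. -/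
lemma sub_step {g : ℝ → ℝ} (hg : Continuous g) {k s r : ℝ} (hk : k ≠ 0)
    (hr : g (s + k) + g (s - k) - 2 * g s ≤ r * k ^ 2) {h ε : ℝ} (hh : h ≠ 0) (hε : 0 < ε) :
    ∃ τ₀ : ℝ, 0 < τ₀ ∧ ∀ τ : ℝ, 0 < τ → τ ≤ τ₀ → ∃ s' : ℝ,
      g (s' + τ * h) + g (s' - τ * h) - 2 * g s' ≤ (r + ε) * (τ * h) ^ 2 := by
  have hka : 0 < |k| := abs_pos.2 hk
  have hha : 0 < |h| := abs_pos.2 hh
  have hψc : Continuous (fun y : ℝ => g (s + y) + g (s - y) - 2 * g s - (r + ε) * y ^ 2) := by
    fun_prop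
  have hψ : g (s + |k|) + g (s - |k|) - 2 * g s - (r + ε) * |k| ^ 2 < 0 := by
    have h1 : g (s + |k|) + g (s - |k|) = g (s + k) + g (s - k) := by
      rcases abs_cases k with ⟨e, _⟩ | ⟨e, _⟩
      · rw [e]
      · rw [e]
        have e1 : s - -k = s + k := by ring
        have e2 : s + -k = s - k := by ring
        rw [e1, e2]; ring
    rw [h1, sq_abs]
    have h2 : 0 < ε * k ^ 2 := by positivity
    nlinarith
  have hev : ∀ᶠ y in 𝓝 |k|, g (s + y) + g (s - y) - 2 * g s - (r + ε) * y ^ 2 < 0 :=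
    (hψc.tendsto |k|).eventually (gt_mem_nhds hψ)
  obtain ⟨δ, hδ, hball⟩ := Metric.eventually_nhds_iff.1 hev
  refine ⟨δ / (2 * |h|), by positivity, fun τ hτ hτ0 => ?_⟩
  set η : ℝ := τ * |h| with hη
  have hη0 : 0 < η := by positivity
  have hηδ : η < δ := by
    have h1 : τ * |h| ≤ δ / (2 * |h|) * |h| := mul_le_mul_of_nonneg_right hτ0 hha.le
    have h2 : δ / (2 * |h|) * |h| = δ / 2 := by field_simp
    rw [hη]; linarith
  by_contra hcon
  push Not at hcon
  have hc2 : ∀ x, (r + ε) * η ^ 2 ≤ g (x + η) + g (x - η) - 2 * g x := by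
    intro x
    have h1 := (hcon x).le
    have h2 : (τ * h) ^ 2 = η ^ 2 := by rw [hη, mul_pow, mul_pow, sq_abs]
    rw [h2] at h1
    refine h1.trans (le_of_eq ?_)
    rcases abs_cases h with ⟨e, _⟩ | ⟨e, _⟩
    · rw [hη, e]
    · rw [hη, e]
      have e1 : x + τ * -h = x - τ * h := by ring
      have e2 : x - τ * -h = x + τ * h := by ring
      rw [e1, e2]; ring
  have hG : ∀ x, 0 ≤ (fun y => g y - (r + ε) / 2 * y ^ 2) (x + η)
      + (fun y => g y - (r + ε) / 2 * y ^ 2) (x - η)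
      - 2 * (fun y => g y - (r + ε) / 2 * y ^ 2) x := by
    intro x
    have h1 := hc2 x
    simp only
    nlinarith
  have h3 := second_n (fun y => g y - (r + ε) / 2 * y ^ 2) η hG ⌊|k| / η⌋₊ s
  have h4 : dist ((⌊|k| / η⌋₊ : ℝ) * η) |k| < δ := by
    have h5 : ((⌊|k| / η⌋₊ : ℝ)) ≤ |k| / η := Nat.floor_le (by positivity)
    have h6 : |k| / η < (⌊|k| / η⌋₊ : ℝ) + 1 := Nat.lt_floor_add_one _
    have h7 : ((⌊|k| / η⌋₊ : ℝ)) * η ≤ |k| := by
      have := mul_le_mul_of_nonneg_right h5 hη0.le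
      rwa [div_mul_cancel₀ _ hη0.ne'] at this
    have h8 : |k| < ((⌊|k| / η⌋₊ : ℝ) + 1) * η := by
      have := mul_lt_mul_of_pos_right h6 hη0
      rwa [div_mul_cancel₀ _ hη0.ne'] at this
    rw [Real.dist_eq, abs_lt]
    constructor <;> nlinarith
  have h5 := hball h4
  nlinarith

end Pool.Agent.TH281.Mor
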